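import Pool.Agent.T9h35.RW.Defs
import Pool.Agent.T9h34.CliqueDef

set_option autoImplicit false

/-!
# The tests of a circuit and the changes of their answers along a chain of graphs
-/

namespace Pool.Agent.VC34

open Pool.Agent.T9h34 (graphInput)
open Pool.Agent.T9h35.RW (Gate Test Circuit runGates)

variable {ι : Type*}

/-- The tests of a gate (none for the gates of the first kind). -/
def tests : Gate ι → List (Test ι)
  | .mono _ _ => []
  | .other ts _ => ts

/-- The number of tests of all gates of a circuit. -/
def numTests (C : Circuit ι) : ℕ := (C.gates.map (fun g => (tests g).length)).sum

/-- The answers to the tests of gate number `j` on the input `x` (the gates before it are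
`C.gates.take j`). -/
noncomputable def answersAt (C : Circuit ι) (x : ι → Bool) (j : ℕ) : List Bool :=
  match C.gates[j]? with
  | some g => (tests g).map (fun t => Test.eval x (runGates x (C.gates.take j)) t)
  | none => []

/-- The answers to all tests of the circuit on the input `x`. -/
noncomputable def answers (C : Circuit ι) (x : ι → Bool) : List (List Bool) :=
  (List.range C.gates.length).map (answersAt C x)

open Classical in
/-- The number of steps `i < M` of the chain `G 0, G 1, ...` at which the answers to the tests of
the circuit change. -/
noncomputable def changes {n : ℕ} (C : Circuit (Fin n × Fin n)) (M : ℕ)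
    (G : ℕ → SimpleGraph (Fin n)) : ℕ :=
  ((Finset.range M).filter fun i =>
    answers C (graphInput (G i)) ≠ answers C (graphInput (G (i + 1)))).card

end Pool.Agent.VC34
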