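import Pool.Agent.T9h34.V.Data
import Pool.Agent.T9h34.V.Defs
import Pool.Agent.T9h35.RW.Pot

set_option autoImplicit false

/-!
# Average-case hardness of clique for arbitrary circuits, in terms of the changes along a chain
-/

namespace Pool.Agent.VC34

open Finset Pool.Agent.T9h34.S Pool.Agent.T9h34.S.Gr
open Pool.Agent.T9h34 (ind ind_of ind_not ind_nonneg ind_le_one ind_mono smalls Ev Ev_mono Spread
  chi pull Ground wordSet card_wordSet graphInput)
open Pool.Agent.T9h34.G (Row sparseCode NoiseOp)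
open Pool.Agent.T9h34.W (exists_enum ind_filter_sum)
open Pool.Agent.T9h35.RW (Circuit Gate Nondecreasing)
open Pool.Agent.T9h34.V (exists_space cutOp cutOp_word le_cutOp score_le grid_data)
open scoped Classical

theorem fanIn_mono {ι : Type*} {f f' d : ℕ} (h : f ≤ f') {C : Circuit ι} (hC : C.FanIn f d) :
    C.FanIn f' d := by
  intro g hg
  have := hC g hg
  cases g with
  | mono args φ => exact ⟨this.1.trans h, this.2⟩
  | other tests φ => exact this

theorem pull_mono {ι κ : Type*} (σ : ι → κ ⊕ Bool) {x y : κ → Bool}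
    (h : ∀ i, x i = true → y i = true) : ∀ i, pull σ x i = true → pull σ y i = true := by
  intro i hi
  unfold pull at hi ⊢
  cases hσ : σ i with
  | inl j =>
    rw [hσ] at hi
    exact h j hi
  | inr c =>
    rw [hσ] at hi
    exact hi

/-- If the answers to the tests are the same then the output is monotone. -/
theorem eval_of_reads_eq {ι : Type*} {f d : ℕ} (hf : 2 ≤ f) {C : Circuit ι} (hC : C.FanIn f d)
    {x y : ι → Bool} (hxy : ∀ i, y i = true → x i = true) (hr : C.reads x = C.reads y)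
    (hy : C.eval y = true) : C.eval x = true := by
  obtain ⟨E, hE1, -, hE3, hE4⟩ := T9h35.RW.exists_detector hf C hC y
  apply hE4 x hr
  apply Circuit.eval_mono (f := f) hxy E hE1
  by_contra hcon
  have := (hE3 y (fun _ h => h) (by simpa using hcon)).2
  rw [hy] at this
  exact absurd this (by simp)

/-- Sum over a filter as a sum of indicators. -/
theorem sum_filter_ind {α : Type*} [Fintype α] (P : α → Prop) [DecidablePred P] (ν : α → ℝ) :
    ∑ x with P x, ν x = ∑ x, ν x * ind (P x) := by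
  rw [sum_filter]
  apply sum_congr rfl
  intro x _
  by_cases h : P x
  · rw [if_pos h, ind_of h, mul_one]
  · rw [if_neg h, ind_not h, mul_zero]

theorem tests_eq {ι : Type*} (g : Gate ι) : tests g = g.tests := by cases g <;> rfl

theorem numTests_eq {ι : Type*} (C : Circuit ι) : numTests C = C.numTests := by
  unfold numTests Circuit.numTests
  simp only [tests_eq]

theorem answers_eq {ι : Type*} (C : Circuit ι) (x : ι → Bool) : answers C x = C.reads x := by
  unfold answers Circuit.reads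
  apply List.map_congr_left
  intro j _
  unfold answersAt Circuit.readsAt
  cases C.gates[j]? with
  | none => rfl
  | some g => simp only [tests_eq]

/-- Along a monotone chain the answers to the tests change few times. -/
theorem changes_le {ι : Type*} {f d : ℕ} {C : Circuit ι} (hC : C.FanIn f d) (x : ℕ → ι → Bool)
    (hx : ∀ i v, x i v = true → x (i + 1) v = true) (M : ℕ) :
    ((range M).filter fun i => C.reads (x (i + 1)) ≠ C.reads (x i)).card + d ≤
      d * 2 ^ C.numOther := by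
  have h1 : ∀ M : ℕ, ((range M).filter fun i => C.reads (x (i + 1)) ≠ C.reads (x i)).card +
      C.pot (x 0) ≤ C.pot (x M) := by
    intro M
    induction M with
    | zero => simp
    | succ M ih =>
      rw [range_add_one, filter_insert]
      split_ifs with h
      · rw [card_insert_of_notMem (by simp)]
        have h2 := C.pot_lt hC (hx M) (fun h' => h h'.symm)
        omega
      · have h2 := C.pot_mono hC (hx M)
        omega
  have h3 := h1 M
  have h4 := C.pot_bound hC (x M)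
  omega

theorem changes_le' {n f d : ℕ} {C : Circuit (Fin n × Fin n)} (hC : C.FanIn f d)
    (G : ℕ → SimpleGraph (Fin n)) (hG : ∀ i, G i ≤ G (i + 1)) (M : ℕ) :
    changes C M G + d ≤ d * 2 ^ C.numOther := by
  have h := changes_le hC (fun i => graphInput (G i)) (by
    intro i v hv
    unfold graphInput at hv ⊢
    rw [decide_eq_true_eq] at hv ⊢
    exact hG i hv) M
  unfold changes
  simp only [answers_eq]
  simp only [ne_comm] at h ⊢
  exact h

/-- The main case. -/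
theorem main_case {n q s f L0 z β : ℕ} (hf : 2 ≤ f) (hqn : q ≤ n) (hL1 : 1 ≤ L0)
    (hn : n < 2 ^ L0) (hs : s < 2 ^ L0)
    (hβ : 1 ≤ β) (hβL : β ≤ L0)
    (hz : z = Nat.log 2 (L0 + f) + 1) (hq : 10 ^ 12 * (L0 * (z + β) ^ 3) ≤ q * β ^ 4)
    (hbig : 4 * 10 ^ 33 * (L0 ^ 2 * (L0 + f) * z ^ 7 * 2 ^ (9 * β)) < (n - q) ^ 2) :
    ∃ (M : ℕ) (Ω : Type) (_ : Fintype Ω) (ν : Ω → ℝ) (G : Ω → ℕ → SimpleGraph (Fin n))
      (H : Ω → SimpleGraph (Fin n)),
      (n - q) ^ 2 ≤ 4 * 10 ^ 33 * (L0 ^ 2 * (L0 + f) * z ^ 7 * 2 ^ (9 * β)) * M ∧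
      (∀ ω, 0 ≤ ν ω) ∧ ∑ ω, ν ω = 1 ∧ (∀ ω i, G ω i ≤ G ω (i + 1)) ∧
      (∀ ω i, ¬ ∃ T, (G ω i).IsNClique q T) ∧
      ∀ (d : ℕ) (C : Circuit (Fin n × Fin n)), C.FanIn f d → C.size + C.numTests ≤ s →
        (M : ℝ) * ((∑ ω with (C.eval (graphInput (H ω)) = true ↔ ∃ T, (H ω).IsNClique q T), ν ω)
            - 1 / 2) ≤
          4 + 3 * ∑ ω, ν ω * ((range M).filter fun i =>
            C.reads (graphInput (G ω (i + 1))) ≠ C.reads (graphInput (G ω i))).card := by
  obtain ⟨a, r, m, p, l, c, lam, W0, S, N, B, κ, e, σ, Φ, hl, hβlam, hcβ, ha, hp0, hX, Hy, hη, he,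
    hΦ, hσ, hMsmall, hnq, hW0⟩ := grid_data hqn hL1 hn hβ hβL hz hq hbig
  have hM0 : 0 < p ^ 2 := by positivity
  obtain ⟨Ω, _, ν, u, h0, h1, h2, h3, -, -, -, h7⟩ :=
    exists_space S (T9h34.S.powOp N (5 * (lam * c) + 1)) e ha (p ^ 2) he
  obtain ⟨T, hT⟩ : ∃ T, T = cutOp S (T9h34.S.powOp N (5 * (lam * c) + 1)) := ⟨_, rfl⟩
  rw [← hT] at h7
  have hTw : T.E (fun U => ind (∃ s, wordSet (sparseCode S) s ⊆ U)) ≤ 0 := by
    rw [hT]
    exact cutOp_word S _ ha
  -- monotonicity of the embedding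
  have hgi : ∀ U Z : Finset (GGround a (r * β) p), U ⊆ Z → ∀ i, graphInput (Φ U) i = true →
      graphInput (Φ Z) i = true := by
    intro U Z hUZ
    rw [← hσ, ← hσ]
    exact pull_mono σ (Gr.chi_le hUZ)
  have hΦmono : ∀ U Z : Finset (GGround a (r * β) p), U ⊆ Z → Φ U ≤ Φ Z := by
    intro U Z hUZ v w hvw
    have h4 := hgi U Z hUZ (v, w) (by unfold graphInput; exact decide_eq_true hvw)
    unfold graphInput at h4
    exact of_decide_eq_true h4
  obtain ⟨μ, hμ⟩ : ∃ μ, μ = Gr.push (Gr.testOp S T e hM0) Φ := ⟨_, rfl⟩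
  have hμ0 : ∀ y, 0 ≤ μ y := by
    intro y
    rw [hμ]
    exact Gr.push_nonneg _ _ _
  have hμ1 : ∑ y, μ y = 1 := by
    rw [hμ]
    exact Gr.sum_push _ _
  refine ⟨p ^ 2, Ω × SimpleGraph (Fin n), inferInstance, fun q => ν q.1 * μ q.2,
    fun q i => Φ (u q.1 i), fun q => q.2, ?_, fun q => mul_nonneg (h0 _) (hμ0 _), ?_,
    fun q i => hΦmono _ _ (h2 q.1 i), fun q i h => h3 q.1 i ((hΦ _).1 h), ?_⟩
  · calc (n - q) ^ 2 ≤ (2 * p * W0) ^ 2 := Nat.pow_le_pow_left hnq 2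
      _ = 4 * W0 ^ 2 * p ^ 2 := by ring
      _ ≤ (4 * W0) ^ 2 * p ^ 2 := by
          apply Nat.mul_le_mul_right
          rw [mul_pow]
          exact Nat.mul_le_mul_right _ (by norm_num)
      _ ≤ _ := Nat.mul_le_mul_right _ hW0
  · rw [Fintype.sum_prod_type]
    simp only [← Finset.mul_sum, hμ1, mul_one]
    exact h1
  intro d C hC hCs
  have hδ : (0 : ℝ) ≤ 5 * (1 / 2 : ℝ) ^ (2 * l) := by positivity
  have herr : T9h35.TX.err (Ground a (r * β)) (5 * (lam * c)) c (s + 1) ((1 / 2 : ℝ) ^ β) ≤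
      2 * (1 / 2 : ℝ) ^ (2 * l) :=
    T9h35.TX.terr_small hβlam hcβ (by omega) (by
      have h4 : 2 ^ L0 < 2 ^ l := Nat.pow_lt_pow_right (by norm_num) (by omega)
      omega) hX
  have hscore := score_le (S := S) (T := T) (e := e) (p ^ 2) ha he hTw
    (fun Z => C.eval (graphInput (Φ Z))) (fun Z => C.reads (graphInput (Φ Z))) hδ
    (by
      intro U e'
      obtain ⟨E, hE1, hE2, hE3, hE4⟩ := T9h35.RW.exists_detector hf C hC (graphInput (Φ U))
      refine ⟨fun Z => E.eval (graphInput (Φ Z)), ?_, ?_, ?_⟩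
      · have hm' : ∀ g ∈ (E.subst σ).gates, g.IsMono f := by
          intro g hg
          simp only [Circuit.subst, List.mem_map] at hg
          obtain ⟨g', hg', rfl⟩ := hg
          exact Gate.isMono_subst _ g' (hE1 g' hg')
        have h4 := T9h35.TX.tdom_block Hy herr (E.subst σ) hm'
          (by rw [Circuit.size_subst]; omega) U e'
        simp only [Circuit.eval_subst, hσ] at h4
        have h5 := le_cutOp S (T9h34.S.powOp N (5 * (lam * c) + 1)) hη
          (F := fun W => ind (E.eval (graphInput (Φ (put U e' W))) = true))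
          (fun _ => ind_nonneg _) (fun _ => ind_le_one _)
        rw [← hT] at h5
        linarith
      · intro Z hUZ hZ
        exact (hE3 _ (hgi U Z hUZ) hZ).2
      · intro Z hr hZ
        exact hE4 _ hr hZ)
    (by
      intro U Z hUZ hr hU
      exact eval_of_reads_eq hf hC (hgi U Z hUZ) hr hU)
  -- the expected number of changes
  have hchg : ∑ q : Ω × SimpleGraph (Fin n), (ν q.1 * μ q.2) * (((range (p ^ 2)).filter fun i =>
        C.reads (graphInput (Φ (u q.1 (i + 1)))) ≠ C.reads (graphInput (Φ (u q.1 i)))).card : ℝ) =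
      ∑ j ∈ Finset.range (p ^ 2), stage T e j (fun U => T.E (fun W =>
        ind (C.reads (graphInput (Φ (put U (e j) W))) ≠ C.reads (graphInput (Φ U))))) := by
    rw [Fintype.sum_prod_type]
    have h4 : ∀ ω : Ω, ∑ y : SimpleGraph (Fin n), (ν ω * μ y) * (((range (p ^ 2)).filter fun i =>
        C.reads (graphInput (Φ (u ω (i + 1)))) ≠ C.reads (graphInput (Φ (u ω i)))).card : ℝ) =
        ∑ j ∈ range (p ^ 2), ν ω *
          ind (C.reads (graphInput (Φ (u ω (j + 1)))) ≠ C.reads (graphInput (Φ (u ω j)))) := by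
      intro ω
      rw [← Finset.sum_mul, ← Finset.mul_sum, hμ1, mul_one, card_filter, Nat.cast_sum,
        Finset.mul_sum]
      apply sum_congr rfl
      intro j _
      by_cases hne : C.reads (graphInput (Φ (u ω (j + 1)))) ≠ C.reads (graphInput (Φ (u ω j)))
      · rw [if_pos hne, ind_of hne, Nat.cast_one]
      · rw [if_neg hne, ind_not hne, Nat.cast_zero]
    simp only [h4]
    rw [sum_comm]
    apply sum_congr rfl
    intro j hj
    rw [mem_range] at hj
    exact h7 j hj (fun U V => ind (C.reads (graphInput (Φ V)) ≠ C.reads (graphInput (Φ U))))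
  -- the probability of a correct answer
  have hprob : (∑ x : Ω × SimpleGraph (Fin n) with
        (C.eval (graphInput x.2) = true ↔ ∃ T, x.2.IsNClique q T), ν x.1 * μ x.2) =
      Gr.gscore S T e (p ^ 2) (fun Z => ind (C.eval (graphInput (Φ Z)) = true ↔ Gr.HasWord S Z)) /
        (2 * ((p ^ 2 : ℕ) : ℝ)) := by
    rw [sum_filter_ind, Fintype.sum_prod_type]
    have h4 : ∀ ω : Ω, ∑ y : SimpleGraph (Fin n), (ν ω * μ y) *
        ind (C.eval (graphInput y) = true ↔ ∃ T, y.IsNClique q T) =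
        ν ω * ∑ y : SimpleGraph (Fin n), μ y *
          ind (C.eval (graphInput y) = true ↔ ∃ T, y.IsNClique q T) := by
      intro ω
      rw [Finset.mul_sum]
      apply sum_congr rfl
      intro y _
      ring
    simp only [h4]
    rw [← Finset.sum_mul, h1, one_mul, hμ, Gr.sum_push_mul]
    unfold Gr.testOp
    simp only [hΦ]
  rw [hprob, hchg]
  obtain ⟨A, hA⟩ : ∃ A, A = Gr.gscore S T e (p ^ 2)
    (fun Z => ind (C.eval (graphInput (Φ Z)) = true ↔ Gr.HasWord S Z)) := ⟨_, rfl⟩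
  obtain ⟨E, hE⟩ : ∃ E, E = ∑ j ∈ Finset.range (p ^ 2), stage T e j (fun U => T.E (fun W =>
        ind (C.reads (graphInput (Φ (put U (e j) W))) ≠ C.reads (graphInput (Φ U))))) := ⟨_, rfl⟩
  obtain ⟨M, hM⟩ : ∃ M : ℝ, M = ((p ^ 2 : ℕ) : ℝ) := ⟨_, rfl⟩
  have hMpos : (0 : ℝ) < M := by rw [hM]; exact_mod_cast hM0
  rw [← hA, ← hE, ← hM] at hscore
  rw [← hA, ← hE, ← hM]
  rw [← hM] at hMsmall
  have h5 : A ≤ M + (8 + 6 * E) := by nlinarith
  have h6 : M * (A / (2 * M) - 1 / 2) = (A - M) / 2 := by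
    field_simp
  rw [h6]
  linarith

/-- **Average-case hardness of clique for arbitrary circuits.** -/
theorem average_case_changes : ∃ K : ℕ, ∀ n k s f b : ℕ, 1 ≤ b → 2 ≤ k → k ≤ n →
    K * (Nat.log 2 s + Nat.log 2 n + 1) *
      (Nat.log 2 (Nat.log 2 s + Nat.log 2 n + 1 + f) + 1 + b) ^ 3 ≤ k * b ^ 4 →
    ∃ (M : ℕ) (Ω : Type) (_ : Fintype Ω) (ν : Ω → ℝ) (G : Ω → ℕ → SimpleGraph (Fin n))
      (H : Ω → SimpleGraph (Fin n)),
      (n - k) ^ 2 ≤ K * (Nat.log 2 s + Nat.log 2 n + 1) ^ 2 * (Nat.log 2 s + Nat.log 2 n + 1 + f) *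
        (Nat.log 2 (Nat.log 2 s + Nat.log 2 n + 1 + f) + 1) ^ 7 * 2 ^ (9 * b) * M ∧
      (∀ ω, 0 ≤ ν ω) ∧ ∑ ω, ν ω = 1 ∧ (∀ ω i, G ω i ≤ G ω (i + 1)) ∧
      (∀ ω i, ¬ ∃ T, (G ω i).IsNClique k T) ∧
      ∀ (d : ℕ) (C : Circuit (Fin n × Fin n)), C.FanIn f d → C.size + numTests C ≤ s →
        (∀ ω, changes C M (G ω) + d ≤ d * 2 ^ C.numOther) ∧
        (M : ℝ) * ((∑ ω with (C.eval (graphInput (H ω)) = true ↔ ∃ T, (H ω).IsNClique k T), ν ω)
            - 1 / 2) ≤ 4 + 3 * ∑ ω, ν ω * changes C M (G ω) := by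
  refine ⟨10 ^ 38, ?_⟩
  intro n q s f β hβ hq2 hqn hq
  obtain ⟨L0, hL0⟩ : ∃ L0, L0 = Nat.log 2 s + Nat.log 2 n + 1 := ⟨_, rfl⟩
  rw [← hL0] at hq ⊢
  obtain ⟨z, hz⟩ : ∃ z, z = Nat.log 2 (L0 + f) + 1 := ⟨_, rfl⟩
  rw [← hz] at hq ⊢
  have hL1 : 1 ≤ L0 := by omega
  have hz1 : 1 ≤ z := by omega
  have hs : s < 2 ^ L0 := lt_of_lt_of_le (Nat.lt_pow_succ_log_self (by norm_num) _)
    (Nat.pow_le_pow_right (by norm_num) (by omega))
  have hn : n < 2 ^ L0 := lt_of_lt_of_le (Nat.lt_pow_succ_log_self (by norm_num) _)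
    (Nat.pow_le_pow_right (by norm_num) (by omega))
  obtain ⟨z', hz'⟩ : ∃ z', z' = Nat.log 2 (L0 + (f + 2)) + 1 := ⟨_, rfl⟩
  have hzz : z' ≤ 3 * z := by
    have h1 : Nat.log 2 (L0 + (f + 2)) < z + 2 := by
      apply (Nat.log_lt_iff_lt_pow (by norm_num) (by omega)).2
      have h2 : L0 + f < 2 ^ z := by rw [hz]; exact Nat.lt_pow_succ_log_self (by norm_num) _
      calc L0 + (f + 2) ≤ 4 * (L0 + f) := by omega
        _ < 4 * 2 ^ z := by omega
        _ = 2 ^ (z + 2) := by rw [pow_add]; ring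
    omega
  have hq' : 10 ^ 12 * (L0 * (z' + β) ^ 3) ≤ q * β ^ 4 := by
    refine le_trans ?_ hq
    calc 10 ^ 12 * (L0 * (z' + β) ^ 3) ≤ 10 ^ 12 * (L0 * (3 * (z + β)) ^ 3) :=
          Nat.mul_le_mul_left _ (Nat.mul_le_mul_left _ (Nat.pow_le_pow_left (by omega) 3))
      _ = 27 * 10 ^ 12 * (L0 * (z + β) ^ 3) := by ring
      _ ≤ 10 ^ 38 * (L0 * (z + β) ^ 3) := Nat.mul_le_mul_right _ (by norm_num)
      _ = _ := by ring
  have hR : 4 * 10 ^ 33 * (L0 ^ 2 * (L0 + (f + 2)) * z' ^ 7 * 2 ^ (9 * β)) ≤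
      10 ^ 38 * L0 ^ 2 * (L0 + f) * z ^ 7 * 2 ^ (9 * β) := by
    calc 4 * 10 ^ 33 * (L0 ^ 2 * (L0 + (f + 2)) * z' ^ 7 * 2 ^ (9 * β))
        ≤ 4 * 10 ^ 33 * (L0 ^ 2 * (3 * (L0 + f)) * (3 * z) ^ 7 * 2 ^ (9 * β)) := by
          apply Nat.mul_le_mul_left
          apply Nat.mul_le_mul_right
          exact Nat.mul_le_mul (Nat.mul_le_mul_left _ (by omega)) (Nat.pow_le_pow_left hzz 7)
      _ = (4 * 10 ^ 33 * 6561) * (L0 ^ 2 * (L0 + f) * z ^ 7 * 2 ^ (9 * β)) := by ring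
      _ ≤ 10 ^ 38 * (L0 ^ 2 * (L0 + f) * z ^ 7 * 2 ^ (9 * β)) :=
          Nat.mul_le_mul_right _ (by norm_num)
      _ = _ := by ring
  by_cases hbig : β ≤ L0 ∧
      4 * 10 ^ 33 * (L0 ^ 2 * (L0 + (f + 2)) * z' ^ 7 * 2 ^ (9 * β)) < (n - q) ^ 2
  · obtain ⟨M, Ω, inst, ν, G, H, h1, h2, h3, h4, h5, h6⟩ :=
      main_case (f := f + 2) (by omega) hqn hL1 hn hs hβ hbig.1 hz' hq' hbig.2
    refine ⟨M, Ω, inst, ν, G, H, h1.trans (Nat.mul_le_mul_right _ hR), h2, h3, h4, h5,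
      fun d C hC hCs => ⟨fun ω => ?_, ?_⟩⟩
    · exact changes_le' hC (G ω) (h4 ω) M
    · rw [numTests_eq] at hCs
      refine (h6 d C (fanIn_mono (by omega) hC) hCs).trans (le_of_eq ?_)
      unfold changes
      simp only [answers_eq]
      simp only [ne_comm]
  · have h3 : (n - q) ^ 2 ≤ 10 ^ 38 * L0 ^ 2 * (L0 + f) * z ^ 7 * 2 ^ (9 * β) := by
      by_cases h5 : β ≤ L0
      · have h6 : (n - q) ^ 2 ≤ 4 * 10 ^ 33 * (L0 ^ 2 * (L0 + (f + 2)) * z' ^ 7 * 2 ^ (9 * β)) := by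
          by_contra h6
          push Not at h6
          exact hbig ⟨h5, h6⟩
        exact h6.trans hR
      · push Not at h5
        have h6 : (n - q) ^ 2 ≤ (2 ^ L0) ^ 2 := Nat.pow_le_pow_left (by omega) 2
        have h7 : (2 ^ L0) ^ 2 ≤ 2 ^ (9 * β) := by
          rw [← pow_mul]
          exact Nat.pow_le_pow_right (by norm_num) (by omega)
        have h8 : 1 ≤ L0 ^ 2 * (L0 + f) * z ^ 7 := Nat.one_le_iff_ne_zero.2 (by positivity)
        calc (n - q) ^ 2 ≤ 2 ^ (9 * β) := h6.trans h7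
          _ = 1 * (1 * 2 ^ (9 * β)) := by ring
          _ ≤ 10 ^ 38 * (L0 ^ 2 * (L0 + f) * z ^ 7 * 2 ^ (9 * β)) :=
              Nat.mul_le_mul (by norm_num) (Nat.mul_le_mul_right _ h8)
          _ = _ := by ring
    refine ⟨1, Unit, inferInstance, fun _ => 1, fun _ _ => ⊥, fun _ => ⊥, by rw [mul_one]; exact h3,
      fun _ => zero_le_one, by simp, fun _ _ => le_rfl, ?_, ?_⟩
    · rintro _ _ ⟨T, hT⟩
      rw [SimpleGraph.isNClique_iff] at hT
      obtain ⟨u, hu, v, hv, huv⟩ := Finset.one_lt_card.1 (by omega : 1 < T.card)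
      exact hT.1 hu hv huv
    · intro d C hC _
      refine ⟨fun ω => changes_le' hC _ (fun _ => le_rfl) 1, ?_⟩
      have hE0 : (0 : ℝ) ≤ ∑ _ω : Unit, (1 : ℝ) *
          changes C 1 (fun _ => (⊥ : SimpleGraph (Fin n))) := by
        positivity
      rw [Nat.cast_one]
      have h4 : ∀ t : Finset Unit, (1 : ℝ) * ((∑ _ω ∈ t, (1 : ℝ)) - 1 / 2) ≤
          4 + 3 * ∑ _ω : Unit, (1 : ℝ) * changes C 1 (fun _ => (⊥ : SimpleGraph (Fin n))) := by
        intro t
        have h5 : ((t.card : ℕ) : ℝ) ≤ 1 := by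
          have h6 := card_le_univ t
          rw [Fintype.card_unit] at h6
          exact_mod_cast h6
        rw [sum_const, nsmul_one]
        linarith
      exact h4 _

end Pool.Agent.VC34
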