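import Pool.Agent.T9h34.V.Main
import Pool.Agent.T9h34.ReadsDef
import Pool.Agent.T9h34.EdgeInputs

set_option autoImplicit false

/-!
# The average-case theorem for Boolean circuits
-/

namespace Pool.Agent.T9h34.V

open Finset
open Pool.Agent.T9h34 (graphInput Pair)
open scoped Classical

/-- The adjacency values of a graph. -/
noncomputable def adj {n : ℕ} (G : SimpleGraph (Fin n)) (e : Pair n) : Bool :=
  decide (G.Adj e.1.1 e.1.2)

/-- The real number of a truth value. -/
def toReal (b : Bool) : ℝ := if b then 1 else 0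

/-- Sources with real values. -/
def srcR {n : ℕ} : T9h34.Src (Pair n) → T9h35.RW.Src (Fin n × Fin n)
  | .input e => .input e.1
  | .const b => .const (toReal b)
  | .gate j => .gate j

/-- Gates with real values. -/
noncomputable def gateR {n : ℕ} : T9h34.Gate (Pair n) → T9h35.RW.Gate (Fin n × Fin n)
  | .and a b => .mono [srcR a, srcR b] (fun l => min (l.getD 0 0) (l.getD 1 0))
  | .or a b => .mono [srcR a, srcR b] (fun l => max (l.getD 0 0) (l.getD 1 0))
  | .other args φ => .other (args.map fun a => (srcR a, 1 / 2)) φ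

/-- Circuits with real values. -/
noncomputable def circR {n : ℕ} (C : T9h34.Circuit (Pair n)) : T9h35.RW.Circuit (Fin n × Fin n) :=
  ⟨C.gates.map gateR, (srcR C.out, 1 / 2)⟩

theorem getD_toReal (vals : List Bool) (j : ℕ) :
    (vals.map toReal).getD j 0 = toReal (vals.getD j false) := by
  have h : (0 : ℝ) = toReal false := by simp [toReal]
  rw [h, List.getD_map]

theorem srcR_eval {n : ℕ} (G : SimpleGraph (Fin n)) (vals : List Bool) (a : T9h34.Src (Pair n)) :
    (srcR a).eval (graphInput G) (vals.map toReal) = toReal (a.eval (adj G) vals) := by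
  cases a with
  | input e =>
    simp [srcR, T9h35.RW.Src.eval, T9h34.Src.eval, adj, graphInput, toReal]
  | const b => rfl
  | gate j => exact getD_toReal vals j

theorem test_toReal (b : Bool) : ((1 : ℝ) / 2 ≤ toReal b) ↔ b = true := by
  cases b
  · simp [toReal]
  · simp [toReal]; norm_num

theorem testR_eval {n : ℕ} (G : SimpleGraph (Fin n)) (vals : List Bool)
    (a : T9h34.Src (Pair n)) :
    T9h35.RW.Test.eval (graphInput G) (vals.map toReal) ((srcR a, 1 / 2) : T9h35.RW.Test _) =
      a.eval (adj G) vals := by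
  unfold T9h35.RW.Test.eval
  rw [srcR_eval]
  have h := test_toReal (a.eval (adj G) vals)
  cases hb : a.eval (adj G) vals with
  | false =>
    rw [hb] at h
    simp only [decide_eq_false_iff_not]
    intro h1
    exact absurd (h.1 h1) (by simp)
  | true =>
    rw [hb] at h
    simp only [decide_eq_true_eq]
    exact h.2 rfl

theorem gateR_eval {n : ℕ} (G : SimpleGraph (Fin n)) (vals : List Bool)
    (g : T9h34.Gate (Pair n)) :
    (gateR g).eval (graphInput G) (vals.map toReal) = toReal (g.eval (adj G) vals) := by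
  cases g with
  | and a b =>
    simp only [gateR, T9h35.RW.Gate.eval, T9h34.Gate.eval, List.map_cons, List.map_nil, srcR_eval]
    simp only [List.getD_cons_zero, List.getD_cons_succ]
    cases a.eval (adj G) vals <;> cases b.eval (adj G) vals <;> simp [toReal]
  | or a b =>
    simp only [gateR, T9h35.RW.Gate.eval, T9h34.Gate.eval, List.map_cons, List.map_nil, srcR_eval]
    simp only [List.getD_cons_zero, List.getD_cons_succ]
    cases a.eval (adj G) vals <;> cases b.eval (adj G) vals <;> simp [toReal]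
  | other args φ =>
    simp only [gateR, T9h35.RW.Gate.eval, T9h34.Gate.eval, List.map_map]
    have h : (args.map ((fun t => T9h35.RW.Test.eval (graphInput G) (vals.map toReal) t) ∘
        fun a => ((srcR a, 1 / 2) : T9h35.RW.Test _))) =
        args.map (fun a => a.eval (adj G) vals) := by
      apply List.map_congr_left
      intro a _
      exact testR_eval G vals a
    rw [h]
    rfl

theorem runGatesR {n : ℕ} (G : SimpleGraph (Fin n)) (gs : List (T9h34.Gate (Pair n))) :
    T9h35.RW.runGates (graphInput G) (gs.map gateR) =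
      (T9h34.runGates (adj G) gs).map toReal := by
  induction gs using List.reverseRecOn with
  | nil => rfl
  | append_singleton gs g ih =>
    rw [List.map_append, List.map_singleton, T9h35.RW.runGates_append, ih, gateR_eval]
    have h : T9h34.runGates (adj G) (gs ++ [g]) =
        T9h34.runGates (adj G) gs ++ [g.eval (adj G) (T9h34.runGates (adj G) gs)] := by
      simp [T9h34.runGates, List.foldl_append]
    rw [h, List.map_append, List.map_singleton]

theorem circR_eval {n : ℕ} (G : SimpleGraph (Fin n)) (C : T9h34.Circuit (Pair n)) :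
    (circR C).eval (graphInput G) = C.eval (adj G) := by
  unfold T9h35.RW.Circuit.eval T9h34.Circuit.eval circR
  rw [runGatesR]
  exact testR_eval G _ _

theorem forall₂_getD {l l' : List ℝ} (h : List.Forall₂ (· ≤ ·) l l') (j : ℕ) :
    l.getD j 0 ≤ l'.getD j 0 := by
  induction h generalizing j with
  | nil => simp
  | cons h1 _ ih =>
    cases j with
    | zero => simpa using h1
    | succ j => simpa using ih j

theorem circR_fanIn {n d : ℕ} {C : T9h34.Circuit (Pair n)} (hC : C.FanIn d) :
    (circR C).FanIn 2 d := by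
  intro g hg
  simp only [circR, List.mem_map] at hg
  obtain ⟨g', hg', rfl⟩ := hg
  cases g' with
  | and a b =>
    exact ⟨by simp, fun u v h => min_le_min (forall₂_getD h 0) (forall₂_getD h 1)⟩
  | or a b =>
    exact ⟨by simp, fun u v h => max_le_max (forall₂_getD h 0) (forall₂_getD h 1)⟩
  | other args φ =>
    have := hC args φ hg'
    simpa [gateR, T9h35.RW.Gate.FanIn] using this

theorem circR_numOther {n : ℕ} (C : T9h34.Circuit (Pair n)) :
    (circR C).numOther = C.numOther := by
  unfold T9h35.RW.Circuit.numOther T9h34.Circuit.numOther circR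
  rw [List.countP_map]
  congr 1
  funext g
  cases g <;> rfl

theorem circR_numTests {n : ℕ} (C : T9h34.Circuit (Pair n)) :
    VC34.numTests (circR C) = C.numReads := by
  unfold VC34.numTests T9h34.Circuit.numReads circR
  rw [List.map_map]
  congr 1
  apply List.map_congr_left
  intro g _
  cases g <;> simp [gateR, VC34.tests, T9h34.Gate.args]

theorem circR_size {n : ℕ} (C : T9h34.Circuit (Pair n)) : (circR C).size = C.size := by
  simp [T9h35.RW.Circuit.size, T9h34.Circuit.size, circR]

/-- **Boolean circuits with few further gates do not decide clique.** -/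
theorem bool_form : ∃ K : ℕ, ∀ n k s : ℕ, 2 ≤ k → k ≤ n →
    K * (Nat.log 2 s + Nat.log 2 n + 1) *
      (Nat.log 2 (Nat.log 2 s + Nat.log 2 n + 1) + 1) ^ 3 ≤ k →
    ∀ (d : ℕ) (C : T9h34.Circuit (Pair n)), C.FanIn d → C.size + C.numReads ≤ s →
      (∀ G : SimpleGraph (Fin n), C.eval (adj G) = true ↔ ∃ T, G.IsNClique k T) →
      (n - k) ^ 2 ≤ K * (Nat.log 2 s + Nat.log 2 n + 1) ^ 3 *
        (Nat.log 2 (Nat.log 2 s + Nat.log 2 n + 1) + 1) ^ 7 * ((1 + d) * 2 ^ C.numOther) := by
  obtain ⟨K, hK⟩ := VC34.average_case_changes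
  refine ⟨K * 10 ^ 8, ?_⟩
  intro n k s hk2 hkn hk d C hC hCs hdec
  obtain ⟨l, hl⟩ : ∃ l, l = Nat.log 2 s + Nat.log 2 n + 1 := ⟨_, rfl⟩
  rw [← hl] at hk ⊢
  obtain ⟨z, hz⟩ : ∃ z, z = Nat.log 2 l + 1 := ⟨_, rfl⟩
  rw [← hz] at hk ⊢
  obtain ⟨z', hz'⟩ : ∃ z', z' = Nat.log 2 (l + 2) + 1 := ⟨_, rfl⟩
  have hl1 : 1 ≤ l := by omega
  have hz1 : 1 ≤ z := by omega
  have hzz : z' ≤ 3 * z := by
    have h1 : Nat.log 2 (l + 2) < z + 2 := by
      apply (Nat.log_lt_iff_lt_pow (by norm_num) (by omega)).2
      have h2 : l < 2 ^ z := by rw [hz]; exact Nat.lt_pow_succ_log_self (by norm_num) _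
      calc l + 2 ≤ 4 * l := by omega
        _ < 4 * 2 ^ z := by omega
        _ = 2 ^ (z + 2) := by rw [pow_add]; ring
    omega
  obtain ⟨M, Ω, _, ν, G, H, h1, h2, h3, h4, h5, h6⟩ := hK n k s 2 1 (by norm_num) hk2 hkn (by
    rw [← hl, ← hz', one_pow, mul_one]
    calc K * l * (z' + 1) ^ 3 ≤ K * l * (4 * z) ^ 3 :=
          Nat.mul_le_mul_left _ (Nat.pow_le_pow_left (by omega) 3)
      _ = 64 * (K * l * z ^ 3) := by ring
      _ ≤ 10 ^ 8 * (K * l * z ^ 3) := Nat.mul_le_mul_right _ (by norm_num)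
      _ = K * 10 ^ 8 * l * z ^ 3 := by ring
      _ ≤ k := hk)
  obtain ⟨h7, h8⟩ := h6 d (circR C) (circR_fanIn hC) (by
    rw [circR_size, circR_numTests]; exact hCs)
  have hall : (∑ ω with ((circR C).eval (graphInput (H ω)) = true ↔
      ∃ T, (H ω).IsNClique k T), ν ω) = 1 := by
    rw [← h3]
    apply Finset.sum_congr _ (fun _ _ => rfl)
    rw [Finset.filter_true_of_mem]
    intro ω _
    rw [circR_eval]
    exact hdec (H ω)
  rw [hall] at h8
  obtain ⟨B, hB⟩ : ∃ B : ℕ, B = (1 + d) * 2 ^ C.numOther := ⟨_, rfl⟩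
  have hX : ∑ ω, ν ω * (VC34.changes (circR C) M (G ω) : ℝ) ≤ d * 2 ^ C.numOther := by
    have h9 : ∀ ω ∈ (univ : Finset Ω), ν ω * (VC34.changes (circR C) M (G ω) : ℝ) ≤
        ν ω * (d * 2 ^ C.numOther) := by
      intro ω _
      apply mul_le_mul_of_nonneg_left _ (h2 ω)
      have h10 := h7 ω
      rw [circR_numOther] at h10
      have h11 : VC34.changes (circR C) M (G ω) ≤ d * 2 ^ C.numOther := by omega
      exact_mod_cast h11
    refine (Finset.sum_le_sum h9).trans (le_of_eq ?_)
    rw [← Finset.sum_mul, h3, one_mul]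
  have hM : (M : ℝ) ≤ 8 * B := by
    have hB' : (B : ℝ) = (1 + d) * 2 ^ C.numOther := by rw [hB]; push_cast; ring
    have h9 : (1 : ℝ) ≤ 2 ^ C.numOther := one_le_pow₀ (by norm_num)
    have h10 : (0 : ℝ) ≤ d := Nat.cast_nonneg d
    nlinarith
  have hM' : M ≤ 8 * B := by exact_mod_cast hM
  rw [← hB]
  rw [← hl, ← hz'] at h1
  calc (n - k) ^ 2 ≤ K * l ^ 2 * (l + 2) * z' ^ 7 * 2 ^ (9 * 1) * M := h1
    _ ≤ K * l ^ 2 * (3 * l) * (3 * z) ^ 7 * 2 ^ (9 * 1) * (8 * B) := by
        apply Nat.mul_le_mul _ hM'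
        apply Nat.mul_le_mul_right
        exact Nat.mul_le_mul (Nat.mul_le_mul_left _ (by omega)) (Nat.pow_le_pow_left hzz 7)
    _ = (6561 * 2 ^ 12) * (K * l ^ 3 * z ^ 7 * B) := by ring
    _ ≤ 10 ^ 8 * (K * l ^ 3 * z ^ 7 * B) := Nat.mul_le_mul_right _ (by norm_num)
    _ = _ := by ring

end Pool.Agent.T9h34.V
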