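import Pool.Agent.T9h34.S.GridScore

set_option autoImplicit false

/-!
# A random chain of inputs without words, and the score of arbitrary functions
-/

namespace Pool.Agent.T9h34.V

open Finset Pool.Agent.T9h34 Pool.Agent.T9h34.S Pool.Agent.T9h34.S.Gr
open Pool.Agent.T9h34.G (Row sparseCode NoiseOp)
open scoped Classical

variable {a b k m p : ℕ}

/-- Sets that contain a word are replaced by the empty set. -/
noncomputable def cut (S : Row a b → Fin k → Fin m) (W : Finset (Ground a b)) :
    Finset (Ground a b) :=
  if ∃ s, wordSet (sparseCode S) s ⊆ W then ∅ else W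

theorem not_word_cut (S : Row a b → Fin k → Fin m) (ha : 0 < a) (W : Finset (Ground a b)) :
    ¬ ∃ s, wordSet (sparseCode S) s ⊆ cut S W := by
  unfold cut
  split_ifs with h
  · rintro ⟨s, hs⟩
    have h5 : (wordSet (sparseCode S) s).card = a := card_wordSet _ s
    have h6 := Finset.card_le_card hs
    rw [h5, Finset.card_empty] at h6
    omega
  · exact h

/-- The noise without words. -/
noncomputable def cutOp (S : Row a b → Fin k → Fin m) (N' : NoiseOp (Ground a b)) :
    NoiseOp (Ground a b) where
  E F := N'.E (fun W => F (cut S W))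
  mono' _ _ h := N'.mono' _ _ (fun W => h _)
  add' _ _ := N'.add' _ _
  const_mul' _ _ := N'.const_mul' _ _
  const' c := N'.const' c

theorem cutOp_word (S : Row a b → Fin k → Fin m) (N' : NoiseOp (Ground a b)) (ha : 0 < a) :
    (cutOp S N').E (fun U => ind (∃ s, wordSet (sparseCode S) s ⊆ U)) ≤ 0 := by
  have h : (fun W : Finset (Ground a b) => ind (∃ s, wordSet (sparseCode S) s ⊆ cut S W)) =
      fun _ => 0 := by
    funext W
    exact ind_not (not_word_cut S ha W)
  change N'.E (fun W => ind (∃ s, wordSet (sparseCode S) s ⊆ cut S W)) ≤ 0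
  rw [h, N'.const']

theorem le_cutOp (S : Row a b → Fin k → Fin m) (N' : NoiseOp (Ground a b)) {η : ℝ}
    (hη : N'.E (fun U => ind (∃ s, wordSet (sparseCode S) s ⊆ U)) ≤ η)
    {F : Finset (Ground a b) → ℝ} (h0 : ∀ W, 0 ≤ F W) (h1 : ∀ W, F W ≤ 1) :
    N'.E F ≤ (cutOp S N').E F + η := by
  have h2 : N'.E F ≤
      N'.E (fun W => F (cut S W) + ind (∃ s, wordSet (sparseCode S) s ⊆ W)) := by
    apply N'.mono
    intro W
    by_cases h : ∃ s, wordSet (sparseCode S) s ⊆ W
    · rw [ind_of h]
      have h3 := h0 (cut S W)
      have h4 := h1 W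
      linarith
    · have h3 : cut S W = W := if_neg h
      rw [h3, ind_not h]
      linarith
  rw [N'.add'] at h2
  change N'.E F ≤ N'.E (fun W => F (cut S W)) + η
  linarith

/-- The random chain. -/
theorem exists_space (S : Row a b → Fin k → Fin m) (N' : NoiseOp (Ground a b))
    (e : ℕ → Fin p × Fin p) (ha : 0 < a) (M : ℕ) (he : ∀ i < M, ∀ j < M, e i = e j → i = j) :
    ∃ (Ω : Type) (_ : Fintype Ω) (ν : Ω → ℝ) (u : Ω → ℕ → Finset (GGround a b p)),
      (∀ ω, 0 ≤ ν ω) ∧ ∑ ω, ν ω = 1 ∧ (∀ ω i, u ω i ⊆ u ω (i + 1)) ∧
      (∀ ω i, ¬ HasWord S (u ω i)) ∧ (∀ ω i, M ≤ i → u ω i = u ω M) ∧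
      (∀ ω, Supp e M (u ω M)) ∧
      (∀ F : Finset (GGround a b p) → ℝ, ∑ ω, ν ω * F (u ω M) = stage (cutOp S N') e M F) ∧
      ∀ j < M, ∀ F : Finset (GGround a b p) → Finset (GGround a b p) → ℝ,
        ∑ ω, ν ω * F (u ω j) (u ω (j + 1)) =
          stage (cutOp S N') e j (fun U => (cutOp S N').E (fun W => F U (put U (e j) W))) := by
  induction M with
  | zero =>
    refine ⟨Unit, inferInstance, fun _ => 1, fun _ _ => ∅, fun _ => zero_le_one, by simp,
      fun _ _ => subset_rfl, ?_, fun _ _ _ => rfl, ?_, ?_, ?_⟩
    · rintro _ _ ⟨e', s, h⟩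
      have h5 : (wordSet (sparseCode S) s).card = a := card_wordSet _ s
      obtain ⟨g, hg⟩ := Finset.card_pos.1 (by rw [h5]; exact ha)
      exact absurd (h g hg) (by simp)
    · intro _ q hq
      simp at hq
    · intro F
      simp [stage]
    · intro j hj
      omega
  | succ M ih =>
    obtain ⟨Ω, _, ν, u, h0, h1, h2, h3, h4, h5, h6, h7⟩ :=
      ih (fun i hi j hj => he i (by omega) j (by omega))
    have hpush : ∑ W, push N' id W = 1 := sum_push _ _
    have hU' : ∀ ω, ∀ q ∈ u ω M, q.1 ≠ e M := by
      intro ω q hq h
      obtain ⟨i, hi, h8⟩ := h5 ω q hq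
      have := he i (by omega) M (by omega) (h8.symm.trans h)
      omega
    refine ⟨Ω × Finset (Ground a b), inferInstance, fun q => ν q.1 * push N' id q.2,
      fun q i => if i ≤ M then u q.1 i else put (u q.1 M) (e M) (cut S q.2),
      fun q => mul_nonneg (h0 _) (push_nonneg _ _ _), ?_, ?_, ?_, ?_, ?_, ?_, ?_⟩
    · rw [Fintype.sum_prod_type]
      simp only [← Finset.mul_sum, hpush, mul_one]
      exact h1
    · rintro ⟨ω, W⟩ i
      simp only
      by_cases hi : i + 1 ≤ M
      · rw [if_pos (by omega : i ≤ M), if_pos hi]
        exact h2 ω i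
      · by_cases hi2 : i ≤ M
        · have : i = M := by omega
          rw [if_pos hi2, if_neg hi, this]
          exact subset_union_left
        · rw [if_neg hi2, if_neg hi]
    · rintro ⟨ω, W⟩ i
      simp only
      split_ifs with hi
      · exact h3 ω i
      · exact hasWord_put S (hU' ω) ha (h3 ω M) (not_word_cut S ha W)
    · rintro ⟨ω, W⟩ i hi
      simp only
      rw [if_neg (by omega), if_neg (by omega)]
    · rintro ⟨ω, W⟩
      simp only
      rw [if_neg (by omega)]
      exact supp_put (h5 ω) _
    · intro F
      rw [Fintype.sum_prod_type]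
      have h8 : ∀ ω, ∑ W, ν ω * push N' id W *
          F (if M + 1 ≤ M then u ω (M + 1) else put (u ω M) (e M) (cut S W)) =
          ν ω * (cutOp S N').E (fun W => F (put (u ω M) (e M) W)) := by
        intro ω
        have h9 := sum_push_mul N' id (fun W => F (put (u ω M) (e M) (cut S W)))
        simp only [id_eq] at h9
        change ∑ W, ν ω * push N' id W *
          F (if M + 1 ≤ M then u ω (M + 1) else put (u ω M) (e M) (cut S W)) =
          ν ω * N'.E (fun W => F (put (u ω M) (e M) (cut S W)))
        rw [← h9, Finset.mul_sum]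
        apply Finset.sum_congr rfl
        intro W _
        rw [if_neg (by omega), mul_assoc]
      simp only [h8]
      have h10 := h6 (fun U => (cutOp S N').E (fun W => F (put U (e M) W)))
      rw [h10]
      rfl
    · intro j hj F
      rw [Fintype.sum_prod_type]
      by_cases hjM : j < M
      · have h8 : ∀ ω, ∑ W : Finset (Ground a b), ν ω * push N' id W *
            F (if j ≤ M then u ω j else put (u ω M) (e M) (cut S W))
              (if j + 1 ≤ M then u ω (j + 1) else put (u ω M) (e M) (cut S W)) =
            ν ω * F (u ω j) (u ω (j + 1)) := by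
          intro ω
          simp only [if_pos hjM.le, if_pos (by omega : j + 1 ≤ M)]
          rw [← Finset.sum_mul, ← Finset.mul_sum, hpush, mul_one]
        simp only [h8]
        exact h7 j hjM F
      · have hj' : j = M := by omega
        subst hj'
        have h8 : ∀ ω, ∑ W : Finset (Ground a b), ν ω * push N' id W *
            F (if j ≤ j then u ω j else put (u ω j) (e j) (cut S W))
              (if j + 1 ≤ j then u ω (j + 1) else put (u ω j) (e j) (cut S W)) =
            ν ω * (cutOp S N').E (fun W => F (u ω j) (put (u ω j) (e j) W)) := by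
          intro ω
          have h9 := sum_push_mul N' id (fun W => F (u ω j) (put (u ω j) (e j) (cut S W)))
          simp only [id_eq] at h9
          change _ = ν ω * N'.E (fun W => F (u ω j) (put (u ω j) (e j) (cut S W)))
          rw [← h9, Finset.mul_sum]
          apply Finset.sum_congr rfl
          intro W _
          rw [if_neg (by omega : ¬ j + 1 ≤ j), if_pos le_rfl, mul_assoc]
        simp only [h8]
        exact h6 (fun U => (cutOp S N').E (fun W => F U (put U (e j) W)))

/-- The score of a function that is monotone while the reads do not change. -/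
theorem score_le {S : Row a b → Fin k → Fin m} {T : NoiseOp (Ground a b)}
    {e : ℕ → Fin p × Fin p} (M : ℕ) (ha : 0 < a) (he : ∀ i < M, ∀ j < M, e i = e j → i = j)
    (hT : T.E (fun U => ind (∃ s, wordSet (sparseCode S) s ⊆ U)) ≤ 0)
    {ρ : Type*} (h : Finset (GGround a b p) → Bool) (r : Finset (GGround a b p) → ρ) {δ : ℝ}
    (hδ : 0 ≤ δ)
    (hdet : ∀ (U : Finset (GGround a b p)) (e' : Fin p × Fin p),
      ∃ D : Finset (GGround a b p) → Bool,
        Ev (wordSet (sparseCode S)) (fun V => ind (D (put U e' V) = true)) ≤
          3 * T.E (fun W => ind (D (put U e' W) = true)) + δ ∧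
        (∀ Z, U ⊆ Z → D Z = false → h Z = false) ∧
        ∀ Z, r Z = r U → D Z = true → h Z = true)
    (hmon : ∀ U Z, U ⊆ Z → r Z = r U → h U = true → h Z = true) :
    gscore S T e M (fun Z => ind (h Z = true ↔ HasWord S Z)) ≤
      M + (3 + 6 * ∑ j ∈ Finset.range M, stage T e j (fun U =>
        T.E (fun W => ind (r (put U (e j) W) ≠ r U))) + M * δ) := by
  set F : Finset (GGround a b p) → ℝ := fun U => ind (h U = true) with hF
  have hpt : ∀ (j : ℕ) (U : Finset (GGround a b p)),
      ind (h U = true ↔ HasWord S U) +
        Ev (wordSet (sparseCode S)) (fun V => ind (h (put U (e j) V) = true ↔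
          HasWord S (put U (e j) V))) ≤
      1 + (ind (HasWord S U) + (3 * (T.E (fun W => F (put U (e j) W)) - F U) +
        (6 * T.E (fun W => ind (r (put U (e j) W) ≠ r U)) + δ))) := by
    intro j U
    have hR0 : 0 ≤ T.E (fun W => ind (r (put U (e j) W) ≠ r U)) :=
      T.nonneg (fun _ => ind_nonneg _)
    by_cases hU : h U = true
    · have h1 : Ev (wordSet (sparseCode S)) (fun V => ind (h (put U (e j) V) = true ↔
          HasWord S (put U (e j) V))) ≤ 1 := Ev_le_one _ (fun _ => ind_le_one _)
      have h2 : ind (h U = true ↔ HasWord S U) ≤ ind (HasWord S U) := by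
        apply ind_mono
        intro h3
        exact h3.1 hU
      have h3 : F U = 1 := ind_of hU
      have h4 : T.E (fun W => F U - ind (r (put U (e j) W) ≠ r U)) ≤
          T.E (fun W => F (put U (e j) W)) := by
        apply T.mono
        intro W
        by_cases hr : r (put U (e j) W) = r U
        · have h5 : h (put U (e j) W) = true := hmon U _ subset_union_left hr hU
          have h6 : F (put U (e j) W) = 1 := ind_of h5
          have h7 := ind_nonneg (r (put U (e j) W) ≠ r U)
          rw [h6, h3]
          linarith
        · have h7 : ind (r (put U (e j) W) ≠ r U) = 1 := ind_of hr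
          have h8 : 0 ≤ F (put U (e j) W) := ind_nonneg _
          rw [h7, h3]
          linarith
      rw [T.sub, T.const'] at h4
      linarith
    · have hU' : h U = false := by simpa using hU
      obtain ⟨D, hD1, hD2, hD3⟩ := hdet U (e j)
      have h1 : Ev (wordSet (sparseCode S)) (fun V => ind (h (put U (e j) V) = true ↔
          HasWord S (put U (e j) V))) ≤
          Ev (wordSet (sparseCode S)) (fun V => ind (D (put U (e j) V) = true)) := by
        apply Ev_mono'
        intro ω
        have hW : HasWord S (put U (e j) (wordSet (sparseCode S) ω)) :=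
          ⟨e j, ω, fun g hg => mem_put.2 (Or.inr ⟨rfl, hg⟩)⟩
        apply ind_mono
        intro h3
        by_contra h4
        have h5 := hD2 (put U (e j) (wordSet (sparseCode S) ω)) subset_union_left
          (by simpa using h4)
        rw [h3.2 hW] at h5
        exact absurd h5 (by simp)
      have h2 : ind (h U = true ↔ HasWord S U) ≤ 1 := ind_le_one _
      have h3 : F U = 0 := ind_not hU
      have h4 : T.E (fun W => ind (D (put U (e j) W) = true)) ≤
          T.E (fun W => F (put U (e j) W) + 2 * ind (r (put U (e j) W) ≠ r U)) := by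
        apply T.mono
        intro W
        have h8 : 0 ≤ F (put U (e j) W) := ind_nonneg _
        by_cases hr : r (put U (e j) W) = r U
        · rw [ind_not (by simpa using hr : ¬ (r (put U (e j) W) ≠ r U))]
          by_cases hD : D (put U (e j) W) = true
          · have h6 : F (put U (e j) W) = 1 := ind_of (hD3 _ hr hD)
            rw [h6, ind_of hD]
            linarith
          · rw [ind_not hD]
            linarith
        · have h7 : ind (r (put U (e j) W) ≠ r U) = 1 := ind_of hr
          have h9 := ind_le_one (D (put U (e j) W) = true)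
          rw [h7]
          linarith
      rw [T.add', T.const_mul'] at h4
      have h5 := ind_nonneg (HasWord S U)
      linarith
  have hstep : ∀ j ∈ Finset.range M, stage T e j (fun U =>
      ind (h U = true ↔ HasWord S U) +
        Ev (wordSet (sparseCode S)) (fun V => ind (h (put U (e j) V) = true ↔
          HasWord S (put U (e j) V)))) ≤
      1 + (3 * (stage T e (j + 1) F - stage T e j F) + (6 * stage T e j (fun U =>
        T.E (fun W => ind (r (put U (e j) W) ≠ r U))) + δ)) := by
    intro j hj
    rw [Finset.mem_range] at hj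
    refine (stage_mono j (hpt j)).trans ?_
    rw [stage_add, stage_const, stage_add, stage_add, stage_add, stage_const_mul,
      stage_const_mul, stage_const]
    have h1 : stage T e j (fun U => T.E (fun W => F (put U (e j) W)) - F U) =
        stage T e (j + 1) F - stage T e j F := by
      have h2 : (fun U => T.E (fun W => F (put U (e j) W)) - F U) =
          fun U => T.E (fun W => F (put U (e j) W)) + (-1) * F U := by funext U; ring
      rw [h2, stage_add, stage_const_mul]
      simp only [stage]
      ring
    rw [h1]
    have h3 := stage_word S ha he hT j hj.le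
    rw [mul_zero] at h3
    linarith
  unfold gscore
  refine (Finset.sum_le_sum hstep).trans ?_
  have h3 : ∑ j ∈ Finset.range M, 3 * (stage T e (j + 1) F - stage T e j F) =
      3 * (stage T e M F - stage T e 0 F) := by
    rw [← Finset.mul_sum, Finset.sum_range_sub (fun j => stage T e j F)]
  rw [Finset.sum_add_distrib, Finset.sum_add_distrib, Finset.sum_add_distrib, h3,
    ← Finset.mul_sum, Finset.sum_const, Finset.sum_const, Finset.card_range, nsmul_eq_mul,
    nsmul_eq_mul, mul_one]
  have h1 : stage T e M F ≤ 1 := by
    rw [← stage_const (N' := T) (e := e) M (1 : ℝ)]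
    exact stage_mono M (fun _ => ind_le_one _)
  have h2 : 0 ≤ stage T e 0 F := stage_nonneg 0 (fun _ => ind_nonneg _)
  linarith

end Pool.Agent.T9h34.V
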