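import Pool.Agent.T9h35.TX.Main
import Pool.Agent.T9h34.V.Path

set_option autoImplicit false

/-!
# The data of the grid of blocks
-/

namespace Pool.Agent.T9h34.V

open Finset Pool.Agent.T9h34.S Pool.Agent.T9h34.S.Gr
open Pool.Agent.T9h34 (ind ind_of ind_not ind_nonneg ind_le_one ind_mono smalls Ev Ev_mono Spread
  chi pull Ground wordSet card_wordSet graphInput)
open Pool.Agent.T9h34.G (Row sparseCode NoiseOp)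
open Pool.Agent.T9h34.W (exists_enum ind_filter_sum)
open Pool.Agent.T9h35.TX (Hyp tblock tsizes t_embedding)
open scoped Classical

/-- The data of a grid for which `n - q` is large. -/
theorem grid_data {n q f L0 z β : ℕ} (hqn : q ≤ n) (hL1 : 1 ≤ L0) (hn : n < 2 ^ L0)
    (hβ : 1 ≤ β) (hβL : β ≤ L0)
    (hz : z = Nat.log 2 (L0 + f) + 1) (hq : 10 ^ 12 * (L0 * (z + β) ^ 3) ≤ q * β ^ 4)
    (hbig : 4 * 10 ^ 33 * (L0 ^ 2 * (L0 + f) * z ^ 7 * 2 ^ (9 * β)) < (n - q) ^ 2) :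
    ∃ (a r m p l c lam W0 : ℕ) (S : Row a (r * β) → Fin 4 → Fin m)
      (N : NoiseOp (Ground a (r * β)))
      (B κ : ℝ) (e : ℕ → Fin p × Fin p) (σ : Fin n × Fin n → GGround a (r * β) p ⊕ Bool)
      (Φ : Finset (GGround a (r * β) p) → SimpleGraph (Fin n)),
      l = 2 * L0 + 100 ∧ β ≤ lam ∧ 3 * l < c * β ∧ 0 < a ∧ 0 < p ∧
      Fintype.card (Ground a (r * β)) + 1 ≤ 2 ^ lam ∧
      Hyp N (wordSet (sparseCode S)) (5 * (lam * c)) c f B κ ((1 / 2 : ℝ) ^ β) ∧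
      (T9h34.S.powOp N (5 * (lam * c) + 1)).E (fun U => ind (∃ s, wordSet (sparseCode S) s ⊆ U)) ≤
        (1 / 2 : ℝ) ^ (2 * l) ∧
      (∀ i < p ^ 2, ∀ j < p ^ 2, e i = e j → i = j) ∧
      (∀ Z, (∃ T, (Φ Z).IsNClique q T) ↔ Gr.HasWord S Z) ∧
      (∀ Z, pull σ (chi Z) = graphInput (Φ Z)) ∧
      ((p ^ 2 : ℕ) : ℝ) * (1 / 2 : ℝ) ^ (2 * l) ≤ 1 ∧
      n - q ≤ 2 * p * W0 ∧
      (4 * W0) ^ 2 ≤ 4 * 10 ^ 33 * (L0 ^ 2 * (L0 + f) * z ^ 7 * 2 ^ (9 * β)) := by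
  obtain ⟨l, hl⟩ : ∃ l, l = 2 * L0 + 100 := ⟨_, rfl⟩
  obtain ⟨w, hw⟩ : ∃ w, w = 2 * l + f + 2 := ⟨_, rfl⟩
  obtain ⟨y, hy⟩ : ∃ y, y = Nat.log 2 w := ⟨_, rfl⟩
  obtain ⟨c, hc⟩ : ∃ c, c = 3 * l / β + 1 := ⟨_, rfl⟩
  obtain ⟨J, hJ⟩ : ∃ J, J = y + 2 := ⟨_, rfl⟩
  obtain ⟨lam, hlam⟩ : ∃ lam, lam = 16 * (y + β) := ⟨_, rfl⟩
  obtain ⟨a, r, m, S, N, B, κ, ha1, hr1, ha, hrβ, h2b, hX, H, hη⟩ :=
    tblock (l := l) (f := f) (w := w) (by omega) hβ hw hy hc hJ hlam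
  have hcβ : 3 * l < c * β := by
    rw [hc]
    have := Nat.lt_mul_div_succ (3 * l) hβ
    rwa [mul_comm β] at this
  obtain ⟨hgr, hw2⟩ := tsizes hL1 hz hl hw hy hβ (by omega) hc hJ hlam hr1 ha hrβ h2b
  have hgr' : a * 2 + a * (2 * r) ≤ q :=
    Nat.le_of_mul_le_mul_right (hgr.trans hq) (by positivity)
  obtain ⟨R, hR⟩ : ∃ R, R = L0 ^ 2 * (L0 + f) * z ^ 7 * 2 ^ (9 * β) := ⟨_, rfl⟩
  obtain ⟨K, hK⟩ : ∃ K, K = 4 * 10 ^ 33 * R := ⟨_, rfl⟩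
  rw [← hR, ← hK] at hw2 hbig
  obtain ⟨W0, hW0⟩ : ∃ W0, W0 = a * 2 * 2 ^ (r * β) + a * (2 * r) * 2 ^ (4 * β) := ⟨_, rfl⟩
  rw [← hW0] at hw2
  have hW0pos : 0 < W0 := by
    rw [hW0]
    have : 0 < a * 2 * 2 ^ (r * β) := by positivity
    omega
  have hWn : 4 * W0 < n - q := by
    have h1 : (4 * W0) ^ 2 < (n - q) ^ 2 := lt_of_le_of_lt hw2 hbig
    exact lt_of_pow_lt_pow_left₀ 2 (Nat.zero_le _) h1
  obtain ⟨p, hp⟩ : ∃ p, p = (n - q) / W0 := ⟨_, rfl⟩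
  have hpW : p * W0 ≤ n - q := by rw [hp]; exact Nat.div_mul_le_self _ _
  have hpW2 : n - q < (p + 1) * W0 := by
    rw [hp, mul_comm]
    exact Nat.lt_mul_div_succ _ hW0pos
  have hp0 : 0 < p := by
    rw [hp]
    exact Nat.div_pos (by omega) hW0pos
  obtain ⟨σ, Φ, hΦ, hσ⟩ := t_embedding (p := p) S ha1 hgr' hqn hp0
    (by rw [← hW0]; exact hpW)
  obtain ⟨e, he⟩ := exists_enum (M := p ^ 2) hp0 le_rfl
  have hM0 : 0 < p ^ 2 := by positivity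
  have hpL : ((p : ℕ) : ℝ) ≤ 2 ^ L0 := by
    have h1 : p ≤ n := by
      have h2 : p * 1 ≤ p * W0 := Nat.mul_le_mul_left _ hW0pos
      omega
    exact_mod_cast h1.trans hn.le
  have hMsmall : ((p ^ 2 : ℕ) : ℝ) * (((p ^ 2 : ℕ) : ℝ) * (1 / 2 : ℝ) ^ (2 * l)) ≤ 1 := by
    have h5 : (1 / 2 : ℝ) ^ (2 * l) ≤ (1 / 2) ^ (4 * L0) :=
      pow_le_pow_of_le_one (by norm_num) (by norm_num) (by omega)
    calc ((p ^ 2 : ℕ) : ℝ) * (((p ^ 2 : ℕ) : ℝ) * (1 / 2 : ℝ) ^ (2 * l))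
        = (p : ℝ) ^ 4 * (1 / 2 : ℝ) ^ (2 * l) := by push_cast; ring
      _ ≤ (2 ^ L0) ^ 4 * (1 / 2) ^ (4 * L0) := by
          apply mul_le_mul (pow_le_pow_left₀ (by positivity) hpL 4) h5 (by positivity)
            (by positivity)
      _ = 1 := by
          rw [← pow_mul, mul_comm L0 4, ← mul_pow]
          norm_num
  have hMsmall2 : ((p ^ 2 : ℕ) : ℝ) * (1 / 2 : ℝ) ^ (2 * l) ≤ 1 := by
    have h1 : (1 : ℝ) ≤ ((p ^ 2 : ℕ) : ℝ) := by exact_mod_cast hM0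
    have h2 : (0 : ℝ) ≤ ((p ^ 2 : ℕ) : ℝ) * (1 / 2 : ℝ) ^ (2 * l) := by positivity
    nlinarith
  refine ⟨a, r, m, p, l, c, lam, W0, S, N, B, κ, e, σ, Φ, hl, by omega, hcβ, by omega, hp0, hX, H,
    hη, he, hΦ, hσ, hMsmall2, by nlinarith, ?_⟩
  rw [← hR, ← hK]
  exact hw2

end Pool.Agent.T9h34.V
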